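import Pool.Agent.H264R2.Bounds

/-!
# The squares are not a finite union of Sidon sets
-/

namespace Pool.Agent.Results.MP_5a38b5_nt.SidonColours

open Filter Topology

/-- `A` is a Sidon set: `a + b = c + d` in `A` forces `{a, b} = {c, d}`. -/
def IsSidonSet (A : Set ℕ) : Prop :=
  ∀ a ∈ A, ∀ b ∈ A, ∀ c ∈ A, ∀ d ∈ A, a + b = c + d → (a = c ∧ b = d) ∨ (a = d ∧ b = c)

/-- The positive perfect squares. -/
def posSquares : Set ℕ := {n : ℕ | ∃ m : ℕ, 1 ≤ m ∧ n = m ^ 2}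

theorem quantitative : ∃ N₀ : ℕ, ∀ N : ℕ, N₀ ≤ N → ∀ (k : ℕ) (A : Fin k → Set ℕ),
    (∀ i, IsSidonSet (A i)) → (∀ m : ℕ, 1 ≤ m → m ≤ N → ∃ i, m ^ 2 ∈ A i) →
      (N : ℝ) ^ (1 / 400 / Real.log (Real.log N)) ≤ k := by
  classical
  obtain ⟨n₀, h⟩ := Pool.Agent.H264R2.Bounds.squares
  refine ⟨max n₀ 1, fun N hN k A hS hcov => ?_⟩
  have hN1 : 1 ≤ N := (le_max_right _ _).trans hN
  have hN0 : (0 : ℝ) < N := by exact_mod_cast hN1
  let B : Fin k → Finset ℕ := fun i => (Finset.Icc 1 N).filter (fun m => m ^ 2 ∈ A i)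
  have hB : ∀ i, ((B i).card : ℝ) ≤ (N : ℝ) ^ (1 - 1 / 400 / Real.log (Real.log N)) := by
    intro i
    apply h N ((le_max_left _ _).trans hN) (B i)
    · intro a ha
      exact (Finset.mem_Icc.1 (Finset.mem_filter.1 ha).1).2
    · intro a ha b hb c hc e he hab heq
      have h1 : a ^ 2 + e ^ 2 = c ^ 2 + b ^ 2 := by
        zify
        linarith
      have hinj : ∀ x y : ℕ, x ^ 2 = y ^ 2 → x = y := fun x y hxy =>
        Nat.pow_left_injective (by norm_num) hxy
      rcases hS i _ (Finset.mem_filter.1 ha).2 _ (Finset.mem_filter.1 he).2 _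
        (Finset.mem_filter.1 hc).2 _ (Finset.mem_filter.1 hb).2 h1 with ⟨h2, h3⟩ | ⟨h2, h3⟩
      · exact ⟨hinj _ _ h2, (hinj _ _ h3).symm⟩
      · exact absurd (hinj _ _ h2) hab
  have hsub : Finset.Icc 1 N ⊆ Finset.univ.biUnion B := by
    intro m hm
    rw [Finset.mem_Icc] at hm
    obtain ⟨i, hi⟩ := hcov m hm.1 hm.2
    rw [Finset.mem_biUnion]
    exact ⟨i, Finset.mem_univ i, Finset.mem_filter.2 ⟨Finset.mem_Icc.2 hm, hi⟩⟩
  have h1 : N ≤ ∑ i : Fin k, (B i).card := by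
    calc N = (Finset.Icc 1 N).card := by simp
      _ ≤ (Finset.univ.biUnion B).card := Finset.card_le_card hsub
      _ ≤ _ := Finset.card_biUnion_le
  have h2 : (N : ℝ) ≤ k * (N : ℝ) ^ (1 - 1 / 400 / Real.log (Real.log N)) := by
    calc (N : ℝ) ≤ ((∑ i : Fin k, (B i).card : ℕ) : ℝ) := by exact_mod_cast h1
      _ = ∑ i : Fin k, ((B i).card : ℝ) := by push_cast; rfl
      _ ≤ ∑ i : Fin k, (N : ℝ) ^ (1 - 1 / 400 / Real.log (Real.log N)) :=
          Finset.sum_le_sum fun i _ => hB i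
      _ = k * (N : ℝ) ^ (1 - 1 / 400 / Real.log (Real.log N)) := by simp
  have h3 : (N : ℝ) = (N : ℝ) ^ (1 / 400 / Real.log (Real.log N)) *
      (N : ℝ) ^ (1 - 1 / 400 / Real.log (Real.log N)) := by
    rw [← Real.rpow_add hN0]
    simp
  have h4 : 0 < (N : ℝ) ^ (1 - 1 / 400 / Real.log (Real.log N)) := Real.rpow_pos_of_pos hN0 _
  by_contra hcon
  push Not at hcon
  have h5 := mul_lt_mul_of_pos_right hcon h4
  rw [← h3] at h5
  linarith

theorem tendsto_bound :
    Tendsto (fun N : ℕ => (N : ℝ) ^ (1 / 400 / Real.log (Real.log N))) atTop atTop := by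
  -- `N ^ (1 / (400 log log N)) = exp (log N / (400 log log N))`
  have h1 : Tendsto (fun y : ℝ => y / Real.log y) atTop atTop := by
    have h2 : Tendsto (fun y : ℝ => Real.log y / y) atTop (𝓝 0) := by
      have := Real.isLittleO_log_id_atTop.tendsto_div_nhds_zero
      simpa using this
    have h3 : Tendsto (fun y : ℝ => (Real.log y / y)⁻¹) atTop atTop := by
      apply Tendsto.inv_tendsto_nhdsGT_zero
      rw [tendsto_nhdsWithin_iff]
      refine ⟨h2, ?_⟩
      filter_upwards [eventually_gt_atTop 1] with y hy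
      exact div_pos (Real.log_pos hy) (by linarith)
    refine h3.congr fun y => ?_
    rw [inv_div]
  have h4 : Tendsto (fun N : ℕ => Real.log (N : ℝ)) atTop atTop :=
    Real.tendsto_log_atTop.comp tendsto_natCast_atTop_atTop
  have h5 := (h1.comp h4).const_mul_atTop (by norm_num : (0 : ℝ) < 1 / 400)
  have h6 := Real.tendsto_exp_atTop.comp h5
  refine h6.congr' ?_
  filter_upwards [eventually_gt_atTop 0] with N hN
  have hN0 : (0 : ℝ) < N := by exact_mod_cast hN
  simp only [Function.comp]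
  rw [Real.rpow_def_of_pos hN0]
  congr 1
  ring

/-- The set of positive squares is not a finite union of Sidon sets; quantitatively, for all large
`N`, covering `1², …, N²` by Sidon sets takes at least `N ^ (1 / (400 log log N))` of them. -/
theorem result :
    (¬ ∃ (k : ℕ) (A : Fin k → Set ℕ), (∀ i, IsSidonSet (A i)) ∧ posSquares = ⋃ i, A i) ∧
    ∃ N₀ : ℕ, ∀ N : ℕ, N₀ ≤ N → ∀ (k : ℕ) (A : Fin k → Set ℕ),
      (∀ i, IsSidonSet (A i)) → (∀ m : ℕ, 1 ≤ m → m ≤ N → ∃ i, m ^ 2 ∈ A i) →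
        (N : ℝ) ^ (1 / 400 / Real.log (Real.log N)) ≤ k := by
  refine ⟨?_, quantitative⟩
  rintro ⟨k, A, hA, hU⟩
  obtain ⟨N₀, h⟩ := quantitative
  obtain ⟨N, hN1, hN2⟩ := ((eventually_ge_atTop N₀).and
    (tendsto_bound.eventually_gt_atTop (k : ℝ))).exists
  have h1 := h N hN1 k A hA (by
    intro m hm1 _
    have : m ^ 2 ∈ posSquares := ⟨m, hm1, rfl⟩
    rw [hU] at this
    exact Set.mem_iUnion.1 this)
  linarith

end Pool.Agent.Results.MP_5a38b5_nt.SidonColours
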